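import Pool.Agent.Run7.h506.TA.Stm

/-!
# Piece DYN of project TA
-/

set_option autoImplicit false

namespace Pool.Agent.Run7.h403.TA

open Pool.Agent.W774.TL Pool.Agent.Run7.h506.TA Set Filter Topology

lemma bet_nonneg {m : ℕ} (x : X m) : 0 ≤ bet x := by
  unfold bet
  refine Finset.sum_nonneg fun i _ => ?_
  have h1 := Real.neg_one_le_cos (2 * Real.pi * x i.succ)
  have h2 : 0 < Real.pi := Real.pi_pos
  apply div_nonneg (by linarith) (by positivity)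

lemma bet_le {m : ℕ} (x : X m) : bet x ≤ m := by
  unfold bet
  have h0 : ∀ i ∈ (Finset.univ : Finset (Fin m)),
      (1 + Real.cos (2 * Real.pi * x i.succ)) / (4 * Real.pi ^ 2) ≤ 1 := by
    intro i _
    have h1 := Real.cos_le_one (2 * Real.pi * x i.succ)
    have h2 : 3 < Real.pi := Real.pi_gt_three
    rw [div_le_one (by positivity)]
    nlinarith
  calc _ ≤ ∑ i : Fin m, (1 : ℝ) := Finset.sum_le_sum h0
    _ = m := by simp

/-- the strength at the level `k`. -/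
noncomputable def MM (c : ℝ) (k : ℕ) : ℝ := c * ((3 : ℝ) ^ k / 6) ^ (1 / 4 : ℝ)

lemma pow3 : Tendsto (fun k : ℕ => (3 : ℝ) ^ k) atTop atTop :=
  tendsto_pow_atTop_atTop_of_one_lt (by norm_num)

lemma MM_tendsto {c : ℝ} (hc : 0 < c) : Tendsto (MM c) atTop atTop := by
  unfold MM
  refine Tendsto.const_mul_atTop hc ?_
  exact (tendsto_rpow_atTop (by norm_num : (0 : ℝ) < 1 / 4)).comp
    (pow3.atTop_div_const (by norm_num))

lemma MM_pos {c : ℝ} (hc : 0 < c) (k : ℕ) : 0 < MM c k := by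
  unfold MM
  positivity

lemma exp_tendsto {c : ℝ} (hc : 0 < c) (G : ℝ) :
    Tendsto (fun k : ℕ => Real.exp (8 * G / Real.sqrt (MM c k))) atTop (𝓝 1) := by
  have h1 : Tendsto (fun k : ℕ => 8 * G / Real.sqrt (MM c k)) atTop (𝓝 0) :=
    tendsto_const_nhds.div_atTop (Real.tendsto_sqrt_atTop.comp (MM_tendsto hc))
  have h2 := (Real.continuous_exp.tendsto 0).comp h1
  rw [Real.exp_zero] at h2
  exact h2

lemma vel_tendsto (D : ℝ) :
    Tendsto (fun k : ℕ => D * ((3 : ℝ) ^ k / 2) ^ (-(3 / 4) : ℝ)) atTop (𝓝 0) := by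
  have h1 : Tendsto (fun k : ℕ => ((3 : ℝ) ^ k / 2) ^ (-(3 / 4) : ℝ)) atTop (𝓝 0) :=
    (tendsto_rpow_neg_atTop (by norm_num : (0 : ℝ) < 3 / 4)).comp
      (pow3.atTop_div_const (by norm_num))
  simpa using h1.const_mul D

/-- large levels. -/
lemma large {c : ℝ} (hc : 0 < c) (G ε : ℝ) (hε : 0 < ε) (m ks : ℕ) : ∃ k0 : ℕ, ∀ k : ℕ, k0 ≤ k →
    ks ≤ k ∧ (c * m) * ((3 : ℝ) ^ k / 2) ^ (-(3 / 4) : ℝ) ≤ 1 / 10 ^ 10 ∧ G ≤ 3 ^ k / 4 ∧
    Real.exp (8 * G / Real.sqrt (MM c k)) ≤ 1 + ε ^ 2 / 10 ∧ (1 : ℝ) ≤ 3 ^ k / 2 := by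
  rw [← eventually_atTop]
  refine (eventually_ge_atTop ks).and (Eventually.and ?_ (Eventually.and ?_ (Eventually.and ?_ ?_)))
  · exact (vel_tendsto (c * m)).eventually_le_const (by positivity)
  · exact (pow3.atTop_div_const (by norm_num : (0 : ℝ) < 4)).eventually_ge_atTop G
  · exact (exp_tendsto hc G).eventually_le_const (by
      have : 0 < ε ^ 2 / 10 := by positivity
      linarith)
  · exact (pow3.atTop_div_const (by norm_num : (0 : ℝ) < 2)).eventually_ge_atTop 1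

/-- growth of the strength. -/
lemma strength {c : ℝ} (hc : 0 < c) (k1 : ℕ) (t p : ℝ) (ht : (k1 : ℝ) + 1 / 2 ≤ t)
    (hp : (3 : ℝ) ^ (t - 3 / 2 : ℝ) / 2 ≤ p) :
    MM c k1 * Real.exp ((t - (k1 + 1 / 2)) / 4) ≤ c * p ^ (1 / 4 : ℝ) := by
  have e1 : (3 : ℝ) ^ (t - 3 / 2 : ℝ) / 2 = (3 : ℝ) ^ k1 / 6 * (3 : ℝ) ^ (t - (k1 + 1 / 2)) := by
    have : t - 3 / 2 = (t - (k1 + 1 / 2)) + ((k1 : ℝ) - 1) := by ring
    have h2 : (3 : ℝ) ^ ((k1 : ℝ) - 1) = (3 : ℝ) ^ k1 / 3 := by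
      rw [Real.rpow_sub (by norm_num), Real.rpow_one, Real.rpow_natCast]
    rw [this, Real.rpow_add (by norm_num), h2]
    ring
  have h1 : (0 : ℝ) ≤ (3 : ℝ) ^ (t - 3 / 2 : ℝ) / 2 := by positivity
  have h2 : ((3 : ℝ) ^ (t - 3 / 2 : ℝ) / 2) ^ (1 / 4 : ℝ) ≤ p ^ (1 / 4 : ℝ) :=
    Real.rpow_le_rpow h1 hp (by norm_num)
  rw [e1, Real.mul_rpow (by positivity) (by positivity), ← Real.rpow_mul (by norm_num)] at h2
  have h3 : Real.exp ((t - (k1 + 1 / 2)) / 4) ≤ (3 : ℝ) ^ ((t - (k1 + 1 / 2)) * (1 / 4)) := by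
    rw [Real.rpow_def_of_pos (by norm_num)]
    apply Real.exp_le_exp.2
    have h4 : (1 : ℝ) ≤ Real.log 3 := by
      rw [Real.le_log_iff_exp_le (by norm_num)]
      exact Real.exp_one_lt_three.le
    have h5 : 0 ≤ (t - (k1 + 1 / 2)) * (1 / 4) := by
      apply mul_nonneg _ (by norm_num)
      linarith
    nlinarith
  unfold MM
  calc c * ((3 : ℝ) ^ k1 / 6) ^ (1 / 4 : ℝ) * Real.exp ((t - (k1 + 1 / 2)) / 4)
      = c * (((3 : ℝ) ^ k1 / 6) ^ (1 / 4 : ℝ) * Real.exp ((t - (k1 + 1 / 2)) / 4)) := by ring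
    _ ≤ c * (((3 : ℝ) ^ k1 / 6) ^ (1 / 4 : ℝ) * (3 : ℝ) ^ ((t - (k1 + 1 / 2)) * (1 / 4))) := by
        gcongr
    _ ≤ c * p ^ (1 / 4 : ℝ) := by gcongr

/-- the trap. -/
lemma trap {ε t0 t : ℝ} (hε : 0 < ε) (hε4 : ε ≤ 1 / 4) (h0 : t0 ≤ t) (y : ℝ → ℝ)
    (hy : ContinuousOn y (Icc t0 t)) (hy0 : |y t0| < 1 / 2)
    (hc : ∀ s ∈ Icc t0 t, 1 - Real.cos (2 * Real.pi * y s) < 4 * ε ^ 2) : |y t| < ε := by
  have h1 : |y t| < 1 / 2 := by
    by_contra hcon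
    push Not at hcon
    have h2 := intermediate_value_Icc h0 (continuous_abs.comp_continuousOn hy)
    obtain ⟨s, hs, hs2⟩ := h2 ⟨hy0.le, hcon⟩
    have h3 := hc s hs
    have h4 : Real.cos (2 * Real.pi * y s) = -1 := by
      rw [← Real.cos_abs, abs_mul, abs_of_pos (by positivity : (0 : ℝ) < 2 * Real.pi)]
      have : |y s| = 1 / 2 := hs2
      rw [this, show 2 * Real.pi * (1 / 2) = Real.pi by ring, Real.cos_pi]
    rw [h4] at h3
    nlinarith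
  have h2 := Real.cos_le_one_sub_mul_cos_sq (x := 2 * Real.pi * y t) (by
    rw [abs_mul, abs_of_pos (by positivity : (0 : ℝ) < 2 * Real.pi)]
    nlinarith [Real.pi_pos])
  have h3 := hc t ⟨h0, le_refl t⟩
  have h4 : 2 / Real.pi ^ 2 * (2 * Real.pi * y t) ^ 2 = 8 * y t ^ 2 := by
    field_simp
    ring
  rw [h4] at h2
  apply abs_lt_of_sq_lt_sq _ hε.le
  nlinarith

theorem t_DYN : S_STOP → S_KF → S_CONF → S_DYN := by
  intro hS hK hC m c G ε hc hG hε hε4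
  obtain ⟨-, hKF⟩ := hK c hc
  obtain ⟨ks, hks⟩ := hS G hG
  obtain ⟨k0, hk0⟩ := large hc G ε hε m ks
  refine ⟨k0, fun k1 hk1 => ?_⟩
  obtain ⟨g1, g2, g3, g4, g5⟩ := hk0 k1 hk1
  refine ⟨ε / (20 * (1 + 1 / c)), by positivity, ?_⟩
  intro T hT x p g hsol hinit
  obtain ⟨i1, i2, i3⟩ := hinit
  have hstop := hks k1 g1 T hT (fun s => x s 0) (fun s => p s 0)
    (fun t => hp (x t 0) (p t 0) t - K1 c (p t 0) * bet (x t))
    (fun t => fo (x t 0) (p t 0) t + g t 0)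
    (by
      intro t ht
      obtain ⟨a1, a2, a3, a4⟩ := hsol t ht
      refine ⟨a1, a2, fun h3 => ⟨?_, ?_⟩⟩
      · obtain ⟨-, -, -, b1, b2, -, -, -, -, -⟩ := hKF (p t 0)
        have h4 : (1 : ℝ) ≤ p t 0 := g5.trans h3
        have h5 := b1 (by linarith)
        have h6 := b2 h4
        have h7 : (p t 0) ^ (-(3 / 4) : ℝ) ≤ ((3 : ℝ) ^ k1 / 2) ^ (-(3 / 4) : ℝ) :=
          Real.rpow_le_rpow_of_nonpos (by positivity) h3 (by norm_num)
        have h8 := bet_nonneg (x t)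
        have h9 := bet_le (x t)
        rw [show hp (x t 0) (p t 0) t - K1 c (p t 0) * bet (x t) - hp (x t 0) (p t 0) t =
          -(K1 c (p t 0) * bet (x t)) by ring, abs_neg, abs_of_nonneg (mul_nonneg h5 h8)]
        calc K1 c (p t 0) * bet (x t) ≤ (c * ((3 : ℝ) ^ k1 / 2) ^ (-(3 / 4) : ℝ)) * m := by
              apply mul_le_mul _ h9 h8 (by positivity)
              exact h6.trans (by gcongr)
          _ = (c * m) * ((3 : ℝ) ^ k1 / 2) ^ (-(3 / 4) : ℝ) := by ring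
          _ ≤ 1 / 10 ^ 10 := g2
      · rw [show fo (x t 0) (p t 0) t + g t 0 - fo (x t 0) (p t 0) t = g t 0 by ring]
        exact a4 0)
    0 ⟨by simpa using i1, i2⟩
  intro t ht
  refine ⟨(hstop t ht).1, fun i => ?_⟩
  have hpos : ∀ s ∈ Icc ((k1 : ℝ) + 1 / 2) T, 0 < p s 0 := by
    intro s hs
    have h1 := (hstop s hs).2.1
    have h2 : (0 : ℝ) < (3 : ℝ) ^ (s - 3 / 2 : ℝ) / 2 := by positivity
    exact h2.trans_le h1
  have hconf := hC G (MM c k1) ((k1 : ℝ) + 1 / 2) T hG (MM_pos hc k1) (fun s => x s i.succ)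
    (fun s => p s i.succ) (fun s => K c (p s 0))
    (fun s => K1 c (p s 0) * (fo (x s 0) (p s 0) s + g s 0)) (fun s => g s i.succ)
    (by
      intro s hs
      obtain ⟨a1, a2, a3, a4⟩ := hsol s hs
      obtain ⟨b0, -, -, b1, -, b3, -, -, -, -⟩ := hKF (p s 0)
      have hst := hstop s hs
      refine ⟨(a3 i).1, (a3 i).2, ?_, ?_, ?_, a4 i.succ⟩
      · exact HasDerivAt.comp (h₂ := K c) (h := fun s => p s 0) s b0 a2
      · apply mul_nonneg (b1 (hpos s hs).le)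
        have h1 := hst.2.2
        have h2 := neg_le_of_abs_le (a4 0)
        linarith
      · exact (strength hc k1 s (p s 0) hs.1 hst.2.1).trans (b3 (hpos s hs)))
  have hρ : ∀ s ∈ Icc ((k1 : ℝ) + 1 / 2) T,
      1 - Real.cos (2 * Real.pi * x s i.succ) < 4 * ε ^ 2 := by
    intro s hs
    have h1 := hconf s hs
    obtain ⟨j1, j2⟩ := i3 i
    set t0 : ℝ := (k1 : ℝ) + 1 / 2 with ht0
    set ρ : ℝ := ε / (20 * (1 + 1 / c)) with hρd
    have ht0m : t0 ∈ Icc t0 T := ⟨le_refl _, hT⟩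
    have hk0 : c ≤ K c (p t0 0) := (hKF (p t0 0)).2.2.2.2.2.2.1
    have hks' : c ≤ K c (p s 0) := (hKF (p s 0)).2.2.2.2.2.2.1
    have hρ0 : 0 < ρ := by positivity
    have hρ2 : ρ ^ 2 * (1 + 1 / c) ≤ ε ^ 2 / 400 := by
      have h2 : (1 : ℝ) ≤ 1 + 1 / c := by
        have : 0 < 1 / c := by positivity
        linarith
      have h3 : ρ * (1 + 1 / c) = ε / 20 := by
        rw [hρd]
        field_simp
      have h4 : ρ ≤ ε / 20 := by
        rw [← h3]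
        nlinarith
      calc ρ ^ 2 * (1 + 1 / c) = ρ * (ρ * (1 + 1 / c)) := by ring
        _ = ρ * (ε / 20) := by rw [h3]
        _ ≤ ε / 20 * (ε / 20) := by gcongr
        _ = ε ^ 2 / 400 := by ring
    have e1 : p t0 i.succ ^ 2 / (2 * K c (p t0 0)) ≤ ρ ^ 2 * (1 / c) / 2 := by
      have h2 : p t0 i.succ ^ 2 ≤ ρ ^ 2 := by
        rw [← sq_abs (p t0 i.succ)]
        gcongr
      calc p t0 i.succ ^ 2 / (2 * K c (p t0 0)) ≤ ρ ^ 2 / (2 * c) := by gcongr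
        _ = ρ ^ 2 * (1 / c) / 2 := by field_simp
    have e2 : (1 - Real.cos (2 * Real.pi * x t0 i.succ)) / (4 * Real.pi ^ 2) ≤ ρ ^ 2 / 2 := by
      have h2 := Real.one_sub_sq_div_two_le_cos (x := 2 * Real.pi * x t0 i.succ)
      have h3 : x t0 i.succ ^ 2 ≤ ρ ^ 2 := by
        rw [← sq_abs (x t0 i.succ)]
        gcongr
      rw [div_le_iff₀ (by positivity)]
      have h4 : 1 - Real.cos (2 * Real.pi * x t0 i.succ) ≤ 2 * Real.pi ^ 2 * x t0 i.succ ^ 2 := by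
        nlinarith
      have h5 : 2 * Real.pi ^ 2 * x t0 i.succ ^ 2 ≤ 2 * Real.pi ^ 2 * ρ ^ 2 := by gcongr
      nlinarith
    have e3 : 0 ≤ p s i.succ ^ 2 / (2 * K c (p s 0)) := by
      apply div_nonneg (sq_nonneg _)
      linarith
    have e4 : 0 ≤ p t0 i.succ ^ 2 / (2 * K c (p t0 0)) := by
      apply div_nonneg (sq_nonneg _)
      linarith
    have e5 : 0 ≤ (1 - Real.cos (2 * Real.pi * x t0 i.succ)) / (4 * Real.pi ^ 2) := by
      apply div_nonneg _ (by positivity)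
      linarith [Real.cos_le_one (2 * Real.pi * x t0 i.succ)]
    set W := p t0 i.succ ^ 2 / (2 * K c (p t0 0)) +
      (1 - Real.cos (2 * Real.pi * x t0 i.succ)) / (4 * Real.pi ^ 2) with hW
    have e6 : 0 ≤ W := by positivity
    have e7 : W ≤ ε ^ 2 / 800 := by
      have : ρ ^ 2 * (1 / c) / 2 + ρ ^ 2 / 2 = ρ ^ 2 * (1 + 1 / c) / 2 := by ring
      linarith
    have e8 : (1 / 2 + W) * Real.exp (8 * G / Real.sqrt (MM c k1)) ≤
        (1 / 2 + W) * (1 + ε ^ 2 / 10) := by gcongr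
    have hε2 : ε ^ 2 ≤ 1 / 16 := by nlinarith
    have hε2' : 0 < ε ^ 2 := by positivity
    have e9 : (1 / 2 + W) * (1 + ε ^ 2 / 10) - 1 / 2 ≤ ε ^ 2 / 15 := by nlinarith
    have e10 : (1 - Real.cos (2 * Real.pi * x s i.succ)) / (4 * Real.pi ^ 2) ≤ ε ^ 2 / 15 := by
      linarith
    rw [div_le_iff₀ (by positivity)] at e10
    have hpi : Real.pi ^ 2 < 10 := by
      have := Real.pi_lt_d2
      nlinarith [Real.pi_pos]
    have e11 : ε ^ 2 / 15 * (4 * Real.pi ^ 2) < 4 * ε ^ 2 := by nlinarith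
    linarith
  have hsub : Icc ((k1 : ℝ) + 1 / 2) t ⊆ Icc ((k1 : ℝ) + 1 / 2) T := Icc_subset_Icc le_rfl ht.2
  apply trap hε hε4 ht.1 (fun s => x s i.succ)
  · intro s hs
    exact ((hsol s (hsub hs)).2.2.1 i).1.continuousAt.continuousWithinAt
  · have h1 := (i3 i).1
    have h2 : ε / (20 * (1 + 1 / c)) < 1 / 2 := by
      have h3 : (0 : ℝ) < 1 / c := by positivity
      rw [div_lt_iff₀ (by positivity)]
      nlinarith
    exact h1.trans_lt h2
  · intro s hs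
    exact hρ s (hsub hs)

end Pool.Agent.Run7.h403.TA
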